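import Pool.Agent.W95.BK.Stm

/-!
# Uniform integrability of the logarithm of the spherical derivative (S_UI)
-/

open Polynomial Topology Filter MeasureTheory
open scoped ENNReal

set_option linter.unusedSectionVars false

namespace Pool.Agent.W382.BK.UI

open Pool.Agent.W95.BK

universe u

section

variable {K : Type u} [NontriviallyNormedField K]

lemma val_sum_le (x : BA K) {ι : Type} (s : Finset ι) (f : ι → K[X]) :
    x (∑ i ∈ s, f i) ≤ ∑ i ∈ s, x (f i) := by
  classical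
  induction s using Finset.induction_on with
  | empty => simp [BA.map_zero]
  | insert i s hi ih =>
    rw [Finset.sum_insert hi, Finset.sum_insert hi]
    refine (x.map_add' _ _).trans ?_
    have h0 := Finset.sum_nonneg (fun i (_ : i ∈ s) => x.nonneg' (f i))
    refine max_le ?_ ?_
    · linarith
    · linarith [x.nonneg' (f i)]

lemma val_le (h : K[X]) (d : ℕ) (hd : h.natDegree ≤ d) : ∃ C : ℝ, 0 ≤ C ∧ ∀ x : BA K,
    x h ≤ C * (max 1 (x X)) ^ d := by
  refine ⟨∑ i ∈ Finset.range (d + 1), ‖h.coeff i‖, Finset.sum_nonneg fun i _ => norm_nonneg _,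
    fun x => ?_⟩
  have h1 : h = ∑ i ∈ Finset.range (d + 1), C (h.coeff i) * X ^ i :=
    h.as_sum_range_C_mul_X_pow' (by omega)
  calc x h = x (∑ i ∈ Finset.range (d + 1), C (h.coeff i) * X ^ i) := by rw [← h1]
    _ ≤ ∑ i ∈ Finset.range (d + 1), x (C (h.coeff i) * X ^ i) := val_sum_le _ _ _
    _ ≤ ∑ i ∈ Finset.range (d + 1), ‖h.coeff i‖ * (max 1 (x X)) ^ d := by
        refine Finset.sum_le_sum fun i hi => ?_
        have hi' : i ≤ d := by have := Finset.mem_range.1 hi; omega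
        rw [x.map_mul', x.map_C', BA.map_pow]
        refine mul_le_mul_of_nonneg_left ?_ (norm_nonneg _)
        calc x X ^ i ≤ (max 1 (x X)) ^ i := pow_le_pow_left₀ (x.nonneg' _) (le_max_right _ _) _
          _ ≤ (max 1 (x X)) ^ d := pow_le_pow_right₀ (le_max_left _ _) hi'
    _ = _ := by rw [Finset.sum_mul]

/-- `l_c(x)` -/
noncomputable def l (c : K) (x : BA K) : ℝ := Real.log (max 1 (x X) * (1 + ‖c‖) / lam x c)

lemma key_c (x : BA K) (c : K) (hl : 0 < lam x c) {δ M' : ℝ} (hδ : 0 < δ)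
    (h1 : Real.log (1 + ‖c‖) ≤ M') (h2 : Real.log ((1 + ‖c‖) ^ 2 / δ) ≤ M') :
    max 0 (l c x - M') ≤ max 0 (Real.log (δ / lam x c)) := by
  have hc0 : 0 ≤ ‖c‖ := norm_nonneg c
  have hX : (1 : ℝ) ≤ max 1 (x X) := le_max_left _ _
  by_cases h : max 1 ‖c‖ < x X
  · have h3 : x X ≤ lam x c := by
      have h4 : x X ≤ max (lam x c) ‖c‖ := by
        have h5 := x.map_add' (X - C c) (C c)
        rw [sub_add_cancel, x.map_C'] at h5
        exact h5
      rcases le_max_iff.1 h4 with h5 | h5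
      · exact h5
      · exact absurd (lt_of_le_of_lt (le_max_right 1 ‖c‖) h) (not_lt.2 h5)
    have h4 : max 1 (x X) = x X := max_eq_right ((le_max_left 1 ‖c‖).trans h.le)
    have h5 : l c x ≤ Real.log (1 + ‖c‖) := by
      unfold l
      refine Real.log_le_log (by positivity) ?_
      rw [div_le_iff₀ hl, h4, mul_comm]
      exact mul_le_mul_of_nonneg_left h3 (by positivity)
    have h6 : l c x - M' ≤ 0 := by linarith
    rw [max_eq_left h6]
    exact le_max_left _ _
  · push Not at h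
    have h3 : max 1 (x X) ≤ 1 + ‖c‖ := by
      refine max_le (by linarith) (h.trans ?_)
      exact max_le (by linarith) (by linarith)
    refine max_le_max le_rfl ?_
    have h4 : l c x ≤ Real.log ((1 + ‖c‖) ^ 2 / δ * (δ / lam x c)) := by
      unfold l
      refine Real.log_le_log (by positivity) ?_
      have h5 : (1 + ‖c‖) ^ 2 / δ * (δ / lam x c) = (1 + ‖c‖) * (1 + ‖c‖) / lam x c := by
        field_simp
      rw [h5]
      refine div_le_div_of_nonneg_right ?_ hl.le
      exact mul_le_mul_of_nonneg_right h3 (by positivity)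
    rw [Real.log_mul (by positivity) (by positivity)] at h4
    linarith

lemma key_inf (x : BA K) {δ M' : ℝ} (hδ : 0 < δ) (h0 : 0 ≤ M') (h1 : Real.log δ ≤ M') :
    max 0 (Real.log (max 1 (x X)) - M') ≤ max 0 (Real.log (x X / δ)) := by
  by_cases h : x X ≤ 1
  · rw [max_eq_left h, Real.log_one, max_eq_left (by linarith)]
    exact le_max_left _ _
  · push Not at h
    rw [max_eq_right h.le]
    refine max_le_max le_rfl ?_
    rw [Real.log_div (by linarith) hδ.ne']
    linarith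

lemma log_prod (s : Multiset K) (f : K → ℝ) (hf : ∀ c, 0 < f c) :
    0 < (s.map f).prod ∧ Real.log (s.map f).prod = (s.map (fun c => Real.log (f c))).sum := by
  induction s using Multiset.induction_on with
  | empty => simp
  | cons c s ih =>
    rw [Multiset.map_cons, Multiset.prod_cons, Multiset.map_cons, Multiset.sum_cons]
    refine ⟨mul_pos (hf c) ih.1, ?_⟩
    rw [Real.log_mul (hf c).ne' ih.1.ne', ih.2]

lemma sum_shift (s : Multiset K) (f : K → ℝ) (a : ℝ) :
    (s.map (fun c => a - f c)).sum = (s.card : ℝ) * a - (s.map f).sum := by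
  induction s using Multiset.induction_on with
  | empty => simp
  | cons c s ih =>
    rw [Multiset.map_cons, Multiset.sum_cons, ih, Multiset.map_cons, Multiset.sum_cons,
      Multiset.card_cons]
    push_cast
    ring

lemma sum_mono (s : Multiset K) (f g : K → ℝ) (h : ∀ c, f c ≤ g c) :
    (s.map f).sum ≤ (s.map g).sum := by
  induction s using Multiset.induction_on with
  | empty => simp
  | cons c s ih =>
    rw [Multiset.map_cons, Multiset.sum_cons, Multiset.map_cons, Multiset.sum_cons]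
    exact add_le_add (h c) ih

lemma sum_nonneg' (s : Multiset K) (f : K → ℝ) (h : ∀ c, 0 ≤ f c) : 0 ≤ (s.map f).sum := by
  have := sum_mono s (fun _ => 0) f h
  simpa using this

/-- The degree of the Wronskian. -/
lemma natDegree_wr (R : RMap K) (hd : 2 ≤ R.d) : (wr R).natDegree ≤ 2 * R.d - 2 := by
  have hP : R.P.natDegree ≤ R.d := R.deg_eq ▸ le_max_left _ _
  have hQ : R.Q.natDegree ≤ R.d := R.deg_eq ▸ le_max_right _ _
  have hP' : (derivative R.P).natDegree ≤ R.d - 1 :=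
    (natDegree_derivative_le _).trans (by omega)
  have hQ' : (derivative R.Q).natDegree ≤ R.d - 1 :=
    (natDegree_derivative_le _).trans (by omega)
  have e : 2 * R.d - 1 = (R.d - 1) + R.d := by omega
  have e' : 2 * R.d - 1 = R.d + (R.d - 1) := by omega
  have h1 : (derivative R.P * R.Q).natDegree ≤ 2 * R.d - 1 := by
    rw [e]; exact natDegree_mul_le_of_le hP' hQ
  have h2 : (R.P * derivative R.Q).natDegree ≤ 2 * R.d - 1 := by
    rw [e']; exact natDegree_mul_le_of_le hP hQ'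
  have h3 : (wr R).natDegree ≤ 2 * R.d - 1 := by
    unfold wr
    exact (natDegree_sub_le _ _).trans (max_le h1 h2)
  have h4 : (wr R).coeff (2 * R.d - 1) = 0 := by
    unfold wr
    rw [coeff_sub]
    have h5 : (derivative R.P * R.Q).coeff (2 * R.d - 1) =
        (derivative R.P).coeff (R.d - 1) * R.Q.coeff R.d := by
      rw [e]; exact coeff_mul_add_eq_of_natDegree_le hP' hQ
    have h6 : (R.P * derivative R.Q).coeff (2 * R.d - 1) =
        R.P.coeff R.d * (derivative R.Q).coeff (R.d - 1) := by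
      rw [e']; exact coeff_mul_add_eq_of_natDegree_le hP hQ'
    rw [h5, h6, coeff_derivative, coeff_derivative]
    have h7 : R.d - 1 + 1 = R.d := by omega
    rw [h7]
    ring
  by_contra hlt
  push Not at hlt
  have h5 : (wr R).natDegree = 2 * R.d - 1 := by omega
  have h6 : wr R = 0 := by
    rw [← leadingCoeff_eq_zero, leadingCoeff, h5, h4]
  rw [h6] at h5
  simp at h5
  omega

end

section

variable {K : Type u} [NontriviallyNormedField K] [IsUltrametricDist K] [IsAlgClosed K]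

lemma lam_pos (hGLAM : S_GLAM.{u}) {x : BA K} (hx : TII x) (c : K) : 0 < lam x c := by
  obtain ⟨a, r, hr, -, rfl⟩ := hx
  rw [(hGLAM K a c).2 r hr]
  exact lt_of_lt_of_le hr (le_max_right _ _)

lemma val_pos (hVAL : S_VAL.{u}) (hGLAM : S_GLAM.{u}) {x : BA K} (hx : TII x) {h : K[X]}
    (hh : h ≠ 0) : 0 < x h := by
  rw [hVAL K x h]
  exact mul_pos (norm_pos_iff.2 (leadingCoeff_ne_zero.2 hh))
    (log_prod _ _ (lam_pos hGLAM hx)).1

/-- Pointwise bound. -/
lemma pointwise (hVAL : S_VAL.{u}) (hGLAM : S_GLAM.{u}) (R : RMap K) (hd : 2 ≤ R.d)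
    (hW : wr R ≠ 0) : ∃ C₀ : ℝ, 0 ≤ C₀ ∧ ∀ (M' : ℝ) (x : BA K), TII x →
    trunc R (C₀ + (2 * R.d - 2 : ℝ) * M') (x : P1B K) - Real.log (sphDeriv R (x : P1B K)) ≤
      ((wr R).roots.map (fun c => max 0 (l c x - M'))).sum +
        ((2 * R.d - 2 - (wr R).natDegree : ℕ) : ℝ) *
          max 0 (Real.log (max 1 (x X)) - M') := by
  have hP : R.P.natDegree ≤ R.d := R.deg_eq ▸ le_max_left _ _
  have hQ : R.Q.natDegree ≤ R.d := R.deg_eq ▸ le_max_right _ _
  obtain ⟨C₁, hC₁, hP1⟩ := val_le R.P R.d hP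
  obtain ⟨C₂, hC₂, hQ1⟩ := val_le R.Q R.d hQ
  set Cc : ℝ := C₁ + C₂ + 1 with hCc
  have hCcpos : 0 < Cc := by positivity
  refine ⟨|Real.log ‖(wr R).leadingCoeff‖| + 2 * |Real.log Cc|, by positivity, fun M' x hx => ?_⟩
  have hXpos : 0 < max 1 (x X) := lt_of_lt_of_le one_pos (le_max_left _ _)
  have hX0 : 0 ≤ Real.log (max 1 (x X)) := Real.log_nonneg (le_max_left _ _)
  have hlc : 0 < ‖(wr R).leadingCoeff‖ := norm_pos_iff.2 (leadingCoeff_ne_zero.2 hW)
  have hWpos : 0 < x (wr R) := val_pos hVAL hGLAM hx hW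
  have hlp := log_prod (wr R).roots (fun c => lam x c) (lam_pos hGLAM hx)
  have hlogW : Real.log (x (wr R)) = Real.log ‖(wr R).leadingCoeff‖ +
      ((wr R).roots.map (fun c => Real.log (lam x c))).sum := by
    rw [hVAL K x (wr R), Real.log_mul hlc.ne' hlp.1.ne', hlp.2]
  have hPQ : 0 < max (x R.P) (x R.Q) := by
    by_cases h : R.P = 0
    · have h' : R.Q ≠ 0 := by
        rintro h'
        have := R.cop
        rw [h, h'] at this
        exact not_isCoprime_zero_zero this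
      exact lt_of_lt_of_le (val_pos hVAL hGLAM hx h') (le_max_right _ _)
    · exact lt_of_lt_of_le (val_pos hVAL hGLAM hx h) (le_max_left _ _)
  have hPQle : max (x R.P) (x R.Q) ≤ Cc * (max 1 (x X)) ^ R.d := by
    have h0 : 0 ≤ (max 1 (x X)) ^ R.d := by positivity
    refine max_le ((hP1 x).trans ?_) ((hQ1 x).trans ?_)
    · exact mul_le_mul_of_nonneg_right (by rw [hCc]; linarith) h0
    · exact mul_le_mul_of_nonneg_right (by rw [hCc]; linarith) h0
  have hlogPQ : Real.log (max (x R.P) (x R.Q)) ≤ Real.log Cc +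
      R.d * Real.log (max 1 (x X)) := by
    have h1 := Real.log_le_log hPQ hPQle
    rw [Real.log_mul hCcpos.ne' (by positivity), Real.log_pow] at h1
    exact h1
  have hS : sphDeriv R (x : P1B K) =
      x (wr R) * max 1 (x X) ^ 2 / max (x R.P) (x R.Q) ^ 2 := rfl
  have hSpos : 0 < sphDeriv R (x : P1B K) := by
    rw [hS]
    positivity
  have hlogS : Real.log (sphDeriv R (x : P1B K)) = Real.log (x (wr R)) +
      2 * Real.log (max 1 (x X)) - 2 * Real.log (max (x R.P) (x R.Q)) := by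
    rw [hS, Real.log_div (by positivity) (by positivity), Real.log_mul hWpos.ne' (by positivity),
      Real.log_pow, Real.log_pow]
    push_cast
    ring
  have hdeg := natDegree_wr R hd
  have hcard : (wr R).roots.card = (wr R).natDegree :=
    (IsAlgClosed.splits (wr R)).natDegree_eq_card_roots.symm
  have hN : ((2 * R.d - 2 - (wr R).natDegree : ℕ) : ℝ) = (2 * R.d - 2 : ℝ) -
      ((wr R).roots.card : ℝ) := by
    rw [hcard, Nat.cast_sub hdeg, Nat.cast_sub (by omega)]
    push_cast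
    ring
  have hsumnn : 0 ≤ ((wr R).roots.map (fun c => max 0 (l c x - M'))).sum :=
    sum_nonneg' _ _ fun c => le_max_left _ _
  have hrhs : 0 ≤ ((wr R).roots.map (fun c => max 0 (l c x - M'))).sum +
        ((2 * R.d - 2 - (wr R).natDegree : ℕ) : ℝ) *
          max 0 (Real.log (max 1 (x X)) - M') := by
    have h1 : (0 : ℝ) ≤ max 0 (Real.log (max 1 (x X)) - M') := le_max_left _ _
    positivity
  have hsum1 : ((wr R).roots.card : ℝ) * (Real.log (max 1 (x X)) - M') -
      ((wr R).roots.map (fun c => Real.log (lam x c))).sum ≤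
      ((wr R).roots.map (fun c => max 0 (l c x - M'))).sum := by
    rw [← sum_shift]
    refine sum_mono _ _ _ fun c => ?_
    refine le_trans ?_ (le_max_right _ _)
    have h1 : l c x = Real.log (max 1 (x X)) + Real.log (1 + ‖c‖) - Real.log (lam x c) := by
      unfold l
      rw [Real.log_div (by positivity) (lam_pos hGLAM hx c).ne', Real.log_mul hXpos.ne'
        (by positivity)]
    have h2 : 0 ≤ Real.log (1 + ‖c‖) := Real.log_nonneg (by linarith [norm_nonneg c])
    linarith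
  have hsum2 : ((2 * R.d - 2 - (wr R).natDegree : ℕ) : ℝ) * (Real.log (max 1 (x X)) - M') ≤
      ((2 * R.d - 2 - (wr R).natDegree : ℕ) : ℝ) * max 0 (Real.log (max 1 (x X)) - M') :=
    mul_le_mul_of_nonneg_left (le_max_right _ _) (Nat.cast_nonneg _)
  set C₀ : ℝ := |Real.log ‖(wr R).leadingCoeff‖| + 2 * |Real.log Cc| with hC₀
  have hC₀' : - Real.log ‖(wr R).leadingCoeff‖ + 2 * Real.log Cc ≤ C₀ := by
    have h1 := neg_abs_le (Real.log ‖(wr R).leadingCoeff‖)
    have h2 := le_abs_self (Real.log Cc)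
    rw [hC₀]
    linarith
  have hmain : -(C₀ + (2 * R.d - 2 : ℝ) * M') - Real.log (sphDeriv R (x : P1B K)) ≤
      ((wr R).roots.map (fun c => max 0 (l c x - M'))).sum +
        ((2 * R.d - 2 - (wr R).natDegree : ℕ) : ℝ) *
          max 0 (Real.log (max 1 (x X)) - M') := by
    rw [hN] at hsum2 ⊢
    rw [hlogS, hlogW]
    nlinarith
  unfold trunc
  rcases le_total (Real.exp (-(C₀ + (2 * R.d - 2 : ℝ) * M'))) (sphDeriv R (x : P1B K)) with h | h
  · rw [max_eq_left h, sub_self]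
    exact hrhs
  · rw [max_eq_right h, Real.log_exp]
    exact hmain

/-- Sums over roots. -/
lemma sum_roots (hPRZ : S_PRZ.{u}) (hUIC : S_UIC.{u}) (hGLAM : S_GLAM.{u}) (R : RMap K)
    (hd : 2 ≤ R.d) (ε : ℝ) (hε : 0 < ε) (s : Multiset K) (hs : ∀ c ∈ s, (wr R).eval c = 0) :
    ∃ M₀ : ℝ, ∀ M' ≥ M₀, ∀ᶠ n in atTop, ∀ I : Finset (BA K), (∀ x ∈ I, XF (R.iter n) x) →
      ∑ x ∈ I, ((localDeg (R.iter n) (x : P1B K) : ℝ) - 1) *
        (s.map (fun c => max 0 (l c x - M'))).sum ≤ (s.card : ℝ) * (ε * (R.d : ℝ) ^ n) := by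
  obtain ⟨B, hB, hB'⟩ := hPRZ K R hd
  induction s using Multiset.induction_on with
  | empty =>
    refine ⟨0, fun M' _ => Eventually.of_forall fun n I hI => ?_⟩
    simp
  | cons c s ih =>
    obtain ⟨M₀, hM₀⟩ := ih fun c' hc' => hs c' (Multiset.mem_cons_of_mem hc')
    have hc := hs c (Multiset.mem_cons_self c s)
    have hc1 : (1 : ℝ) ≤ 1 + ‖c‖ := by linarith [norm_nonneg c]
    have hc2 : (1 : ℝ) ≤ (1 + ‖c‖) ^ (2 * R.d) := one_le_pow₀ hc1
    have hBc : 1 ≤ B * (1 + ‖c‖) ^ (2 * R.d) := by nlinarith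
    obtain ⟨δ, hδ, hev⟩ := hUIC K R hd c (B * (1 + ‖c‖) ^ (2 * R.d)) ε hBc hε
    refine ⟨max M₀ (max (Real.log (1 + ‖c‖)) (Real.log ((1 + ‖c‖) ^ 2 / δ))), fun M' hM' => ?_⟩
    have h1 : M₀ ≤ M' := (le_max_left _ _).trans hM'
    have h2 : Real.log (1 + ‖c‖) ≤ M' :=
      ((le_max_left _ _).trans (le_max_right _ _)).trans hM'
    have h3 : Real.log ((1 + ‖c‖) ^ 2 / δ) ≤ M' :=
      ((le_max_right _ _).trans (le_max_right _ _)).trans hM'
    filter_upwards [hM₀ M' h1, hev, eventually_ge_atTop 1] with n hn1 hn2 hn3 I hI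
    have h4 := hn1 I hI
    have h5 := hn2 I (fun x hx => by
      refine ⟨hI x hx, ?_⟩
      have h6 := (hB' n hn3 x (hI x hx)).1 c hc
      have hl := lam_pos hGLAM (hI x hx).1 c
      refine h6.trans ?_
      refine mul_le_mul_of_nonneg_right ?_ hl.le
      rw [mul_pow]
      refine mul_le_mul_of_nonneg_left ?_ (by positivity)
      exact le_self_pow₀ hc2 (by omega))
    have h7 : ∑ x ∈ I, ((localDeg (R.iter n) (x : P1B K) : ℝ) - 1) * max 0 (l c x - M') ≤
        ∑ x ∈ I, ((localDeg (R.iter n) (x : P1B K) : ℝ) - 1) *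
          max 0 (Real.log (δ / lam x c)) := by
      refine Finset.sum_le_sum fun x hx => ?_
      refine mul_le_mul_of_nonneg_left (key_c x c (lam_pos hGLAM (hI x hx).1 c) hδ h2 h3) ?_
      have h8 : (2 : ℝ) ≤ (localDeg (R.iter n) (x : P1B K) : ℝ) := by
        exact_mod_cast (hI x hx).2.2
      linarith
    have h9 : ∑ x ∈ I, ((localDeg (R.iter n) (x : P1B K) : ℝ) - 1) *
        (((c ::ₘ s).map (fun c => max 0 (l c x - M'))).sum) =
        ∑ x ∈ I, ((localDeg (R.iter n) (x : P1B K) : ℝ) - 1) * max 0 (l c x - M') +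
        ∑ x ∈ I, ((localDeg (R.iter n) (x : P1B K) : ℝ) - 1) *
          (s.map (fun c => max 0 (l c x - M'))).sum := by
      rw [← Finset.sum_add_distrib]
      refine Finset.sum_congr rfl fun x _ => ?_
      rw [Multiset.map_cons, Multiset.sum_cons]
      ring
    rw [h9, Multiset.card_cons]
    push_cast
    linarith

/-- The sum at infinity. -/
lemma sum_inf (hPRZ : S_PRZ.{u}) (hUII : S_UII.{u}) (R : RMap K)
    (hd : 2 ≤ R.d) (ε : ℝ) (hε : 0 < ε) (N : ℕ) (hN : N ≠ 0 → (wr R).coeff (2 * R.d - 2) = 0) :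
    ∃ M₀ : ℝ, ∀ M' ≥ M₀, ∀ᶠ n in atTop, ∀ I : Finset (BA K), (∀ x ∈ I, XF (R.iter n) x) →
      ∑ x ∈ I, ((localDeg (R.iter n) (x : P1B K) : ℝ) - 1) *
        ((N : ℝ) * max 0 (Real.log (max 1 (x X)) - M')) ≤ (N : ℝ) * (ε * (R.d : ℝ) ^ n) := by
  by_cases hN0 : N = 0
  · refine ⟨0, fun M' _ => Eventually.of_forall fun n I hI => ?_⟩
    simp [hN0]
  obtain ⟨B, hB, hB'⟩ := hPRZ K R hd
  obtain ⟨δ, hδ, hev⟩ := hUII K R hd B ε hB hε
  refine ⟨max 0 (Real.log δ), fun M' hM' => ?_⟩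
  have h1 : 0 ≤ M' := (le_max_left _ _).trans hM'
  have h2 : Real.log δ ≤ M' := (le_max_right _ _).trans hM'
  filter_upwards [hev, eventually_ge_atTop 1] with n hn1 hn2 I hI
  have h3 := hn1 I (fun x hx => by
    refine ⟨hI x hx, ?_⟩
    exact (le_max_right _ _).trans ((hB' n hn2 x (hI x hx)).2 (hN hN0)))
  have h4 : ∑ x ∈ I, ((localDeg (R.iter n) (x : P1B K) : ℝ) - 1) *
        ((N : ℝ) * max 0 (Real.log (max 1 (x X)) - M')) ≤
      ∑ x ∈ I, (N : ℝ) * (((localDeg (R.iter n) (x : P1B K) : ℝ) - 1) *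
        max 0 (Real.log (x X / δ))) := by
    refine Finset.sum_le_sum fun x hx => ?_
    have h8 : (2 : ℝ) ≤ (localDeg (R.iter n) (x : P1B K) : ℝ) := by
      exact_mod_cast (hI x hx).2.2
    have h9 := key_inf x hδ h1 h2
    have h10 : ((localDeg (R.iter n) (x : P1B K) : ℝ) - 1) *
        ((N : ℝ) * max 0 (Real.log (max 1 (x X)) - M')) =
        (N : ℝ) * (((localDeg (R.iter n) (x : P1B K) : ℝ) - 1) *
          max 0 (Real.log (max 1 (x X)) - M')) := by ring
    rw [h10]
    refine mul_le_mul_of_nonneg_left ?_ (Nat.cast_nonneg _)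
    exact mul_le_mul_of_nonneg_left h9 (by linarith)
  rw [← Finset.mul_sum] at h4
  exact h4.trans (mul_le_mul_of_nonneg_left h3 (Nat.cast_nonneg _))

end

theorem main0 (hPRZ : S_PRZ.{u}) (hUIC : S_UIC.{u}) (hUII : S_UII.{u}) (hVAL : S_VAL.{u})
    (hGLAM : S_GLAM.{u}) : S_UI.{u} := by
  intro K _ _ _ R hd hW ε hε
  obtain ⟨C₀, hC₀, hpt⟩ := pointwise hVAL hGLAM R hd hW
  have hd' : (2 : ℝ) ≤ R.d := by exact_mod_cast hd
  set N : ℕ := 2 * R.d - 2 - (wr R).natDegree with hNdef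
  set ε' : ℝ := ε / (4 * R.d) with hε'
  have hε'pos : 0 < ε' := by positivity
  have hdeg := natDegree_wr R hd
  have hcard : (wr R).roots.card = (wr R).natDegree :=
    (IsAlgClosed.splits (wr R)).natDegree_eq_card_roots.symm
  obtain ⟨M₁, hM₁⟩ := sum_roots hPRZ hUIC hGLAM R hd ε' hε'pos (wr R).roots (fun c hc => by
    rw [mem_roots hW] at hc
    exact hc)
  obtain ⟨M₂, hM₂⟩ := sum_inf hPRZ hUII R hd ε' hε'pos N (fun h => by
    apply coeff_eq_zero_of_natDegree_lt
    omega)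
  set M' : ℝ := max 1 (max M₁ M₂) with hM'
  have h1 : M' ≥ M₁ := (le_max_left _ _).trans (le_max_right _ _)
  have h2 : M' ≥ M₂ := (le_max_right _ _).trans (le_max_right _ _)
  have h3 : 1 ≤ M' := le_max_left _ _
  refine ⟨C₀ + (2 * R.d - 2 : ℝ) * M', by nlinarith, ?_⟩
  filter_upwards [hM₁ M' h1, hM₂ M' h2] with n hn1 hn2 I hI
  have h4 := hn1 I hI
  have h5 := hn2 I hI
  have h6 : ∑ x ∈ I, (localDeg (R.iter n) (x : P1B K) : ℝ) *
      (trunc R (C₀ + (2 * R.d - 2 : ℝ) * M') (x : P1B K) -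
        Real.log (sphDeriv R (x : P1B K))) ≤
      ∑ x ∈ I, 2 * ((((localDeg (R.iter n) (x : P1B K) : ℝ) - 1) *
        ((wr R).roots.map (fun c => max 0 (l c x - M'))).sum) +
        ((localDeg (R.iter n) (x : P1B K) : ℝ) - 1) *
          ((N : ℝ) * max 0 (Real.log (max 1 (x X)) - M'))) := by
    refine Finset.sum_le_sum fun x hx => ?_
    have h8 : (2 : ℝ) ≤ (localDeg (R.iter n) (x : P1B K) : ℝ) := by
      exact_mod_cast (hI x hx).2.2
    have h9 := hpt M' x (hI x hx).1
    have h10 : 0 ≤ ((wr R).roots.map (fun c => max 0 (l c x - M'))).sum :=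
      sum_nonneg' _ _ fun c => le_max_left _ _
    have h11 : (0 : ℝ) ≤ max 0 (Real.log (max 1 (x X)) - M') := le_max_left _ _
    have h12 : 0 ≤ (N : ℝ) * max 0 (Real.log (max 1 (x X)) - M') := by positivity
    have h13 := mul_le_mul_of_nonneg_left h9 (show (0 : ℝ) ≤
      (localDeg (R.iter n) (x : P1B K) : ℝ) by linarith)
    refine h13.trans ?_
    rw [← mul_add, ← mul_assoc]
    refine mul_le_mul_of_nonneg_right ?_ (by linarith)
    linarith
  rw [← Finset.mul_sum, Finset.sum_add_distrib] at h6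
  have h7 : ((wr R).roots.card : ℝ) + (N : ℝ) ≤ 2 * R.d := by
    have h8 : (wr R).roots.card + N ≤ 2 * R.d := by omega
    exact_mod_cast h8
  have h8 : 0 ≤ ε' * (R.d : ℝ) ^ n := by positivity
  calc _ ≤ _ := h6
    _ ≤ 2 * (((wr R).roots.card : ℝ) * (ε' * (R.d : ℝ) ^ n) + (N : ℝ) * (ε' * (R.d : ℝ) ^ n)) := by
        linarith
    _ = 2 * ((((wr R).roots.card : ℝ) + (N : ℝ)) * (ε' * (R.d : ℝ) ^ n)) := by ring
    _ ≤ 2 * ((2 * R.d) * (ε' * (R.d : ℝ) ^ n)) := by
        have := mul_le_mul_of_nonneg_right h7 h8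
        linarith
    _ = ε * (R.d : ℝ) ^ n := by
        rw [hε']
        have : (R.d : ℝ) ≠ 0 := by positivity
        field_simp
        ring

theorem main : S_PRZ.{u} → S_UIC.{u} → S_UII.{u} → S_VAL.{u} → S_GREEN.{u} → S_GLAM.{u} →
    S_ITER.{u} → S_UI.{u} := fun a b c d _ f _ => main0 a b c d f

end Pool.Agent.W382.BK.UI
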