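import Pool.Agent.W622.BK.Stm

/-! # BK-SETUP (helper382) -/

set_option autoImplicit false

namespace Pool.Agent.W382.BK.SETUP

open Pool.Agent.W622.BK Module

universe u

theorem t_SETUP : S_SETUP.{u} := by
  intro k _ L _ _ g hg
  have : FiniteDimensional k (g 1) := hg.finite 1
  have hint := hg.internal
  let φ := LinearEquiv.ofBijective (DirectSum.coeLinearMap g) hint
  have hφ : ∀ (i : ℕ) (x : g i), φ.symm (x : L) = DirectSum.lof k ℕ (fun i => g i) i x := by
    intro i x
    rw [LinearEquiv.symm_apply_eq]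
    show (x : L) = DirectSum.coeLinearMap g (DirectSum.lof k ℕ (fun i => g i) i x)
    rw [DirectSum.coeLinearMap_lof]
  obtain ⟨p, hp⟩ : ∃ p : L →ₗ[k] g 1, p =
    (DirectSum.component k ℕ (fun i => g i) 1) ∘ₗ φ.symm.toLinearMap := ⟨_, rfl⟩
  have hp1 : ∀ x : g 1, p x = x := by
    intro x
    rw [hp, LinearMap.comp_apply, LinearEquiv.coe_coe, hφ, DirectSum.component.lof_self]
  have hp0 : ∀ i, i ≠ 1 → ∀ x ∈ g i, p x = 0 := by
    intro i hi x hx
    have h1 := hφ i ⟨x, hx⟩
    rw [hp, LinearMap.comp_apply, LinearEquiv.coe_coe]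
    rw [show φ.symm x = _ from h1]
    rw [DirectSum.component.of, dif_neg hi]
  have htop : (⨆ i, g i) = ⊤ := hint.submodule_iSup_eq_top
  have hz : ∀ x y : L, p ⁅x, y⁆ = 0 := by
    intro x y
    have hx : x ∈ ⨆ i, g i := by rw [htop]; trivial
    have hy : y ∈ ⨆ i, g i := by rw [htop]; trivial
    refine Submodule.iSup_induction g (motive := fun x => p ⁅x, y⁆ = 0) hx ?_ ?_ ?_
    · intro i a ha
      refine Submodule.iSup_induction g (motive := fun y => p ⁅a, y⁆ = 0) hy ?_ ?_ ?_
      · intro i' b hb
        have h1 := hg.lie_mem i i' a b ha hb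
        by_cases h2 : i + i' = 1
        · rcases Nat.eq_zero_or_pos i with h3 | h3
          · subst h3
            rw [hg.zero, Submodule.mem_bot] at ha
            rw [ha, zero_lie, map_zero]
          · have h4 : i' = 0 := by omega
            subst h4
            rw [hg.zero, Submodule.mem_bot] at hb
            rw [hb, lie_zero, map_zero]
        · exact hp0 _ h2 _ h1
      · rw [lie_zero, map_zero]
      · intro b c hb hc
        rw [lie_add, map_add, hb, hc, add_zero]
    · rw [zero_lie, map_zero]
    · intro b c hb hc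
      rw [add_lie, map_add, hb, hc, add_zero]
  refine ⟨(g 1).subtype ∘ₗ (Module.evalEquiv k (g 1)).symm.toLinearMap,
    (Module.evalEquiv k (g 1)).toLinearMap ∘ₗ p, ?_, ?_, ?_⟩
  · intro f
    rw [LinearMap.comp_apply, LinearMap.comp_apply, LinearEquiv.coe_coe, LinearEquiv.coe_coe,
      Submodule.subtype_apply, hp1]
    exact LinearEquiv.apply_symm_apply _ _
  · intro x y
    rw [LinearMap.comp_apply, hz, map_zero]
  · rw [LinearMap.range_comp, LinearEquiv.range, Submodule.map_top, Submodule.range_subtype]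

end Pool.Agent.W382.BK.SETUP
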